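import Pool.Agent.Helper57_C2.Stmts
import Pool.Agent.Helper35_K9.CHV
import Pool.Agent.Helper63_PP.Smt
import Pool.Agent.Helper50_PP.Bid
import Pool.Agent.Helper50_PP.Ffa
import Pool.Agent.Helper20_PP.Rst
import Pool.Agent.Helper17_PP.Prv
import Pool.Agent.Helper65_PP.Sup

/-!
# Squad C2, row COL: the number of columns
-/

open scoped BigOperators

noncomputable section

namespace Pool.Agent.PP.C2.H87

open Pool.Agent.Helper51_AWC Pool.Agent.Helper79_WRA Pool.Agent.PP Pool.Agent.PP.KF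
open Pool.Agent.PP.K9

attribute [local instance] Ideal.Quotient.field

section gen

variable {F : Type} [Field F]

/-- The numbers of irreducible modular characters of different blocks add up. -/
theorem sum_lb_le {ℓ : ℕ} (hF : GoodF ℓ F) {K : Type} [Group K] [Finite K] {e : K → F}
    (S : Finset (K → F)) (h1 : ∀ b ∈ S, IsBlk b) (h2 : ∀ b ∈ S, mulF e b = b) :
    ∑ b ∈ S, lb b ≤ {f : K → F | f ∈ IBr F K ∧ actF e f = f}.ncard := by
  classical
  have hfin : (IBr F K).Finite := (H20.ibf ℓ F hF K).1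
  have hA : ∀ a : K → F, {f : K → F | f ∈ IBr F K ∧ actF a f = f}.ncard =
      (hfin.toFinset.filter (fun f => actF a f = f)).card := by
    intro a
    rw [← Set.ncard_coe_finset]
    congr 1
    ext f
    simp
  have hd : ∀ b ∈ S, ∀ b' ∈ S, b ≠ b' →
      Disjoint (hfin.toFinset.filter (fun f => actF b f = f))
        (hfin.toFinset.filter (fun f => actF b' f = f)) := by
    intro b hb b' hb' hne
    rw [Finset.disjoint_left]
    intro f hf hf'
    rw [Finset.mem_filter] at hf hf'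
    have h0 : mulF b b' = 0 := by
      by_contra h
      exact hne (H17.blk_eq (h1 b hb) (h1 b' hb') h)
    have h3 := actF_mulF b b' f
    rw [hf.2, hf'.2, h0] at h3
    refine H65.ibr_ne_zero hF (hfin.mem_toFinset.1 hf.1) ?_
    rw [← h3]
    funext x
    simp [actF]
  have h4 : ∑ b ∈ S, lb b = ∑ b ∈ S, (hfin.toFinset.filter (fun f => actF b f = f)).card :=
    Finset.sum_congr rfl fun b _ => hA b
  rw [h4, hA, ← Finset.card_biUnion hd]
  apply Finset.card_le_card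
  intro f hf
  rw [Finset.mem_biUnion] at hf
  obtain ⟨b, hb, hf⟩ := hf
  rw [Finset.mem_filter] at hf ⊢
  refine ⟨hf.1, ?_⟩
  have h5 : mulF b e = b := by
    rw [H17.mulF_comm (h1 b hb).1.1, h2 b hb]
  have h6 := actF_mulF b e f
  rw [hf.2, h5, hf.2] at h6
  exact h6.symm

variable {G : Type} [Group G]

/-- conjugation between centralisers -/
def cj (g w : G) : Cu w ≃* Cu (g * w * g⁻¹) where
  toFun t := ⟨g * t * g⁻¹, by
    have ht := Subgroup.mem_centralizer_singleton_iff.1 t.2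
    rw [Subgroup.mem_centralizer_singleton_iff]
    calc g * (t : G) * g⁻¹ * (g * w * g⁻¹) = g * (t * w) * g⁻¹ := by group
      _ = g * (w * t) * g⁻¹ := by rw [ht]
      _ = g * w * g⁻¹ * (g * t * g⁻¹) := by group⟩
  invFun t := ⟨g⁻¹ * t * g, by
    have ht := Subgroup.mem_centralizer_singleton_iff.1 t.2
    rw [Subgroup.mem_centralizer_singleton_iff]
    calc g⁻¹ * (t : G) * g * w = g⁻¹ * (t * (g * w * g⁻¹)) * g := by group
      _ = g⁻¹ * (g * w * g⁻¹ * t) * g := by rw [ht]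
      _ = w * (g⁻¹ * t * g) := by group⟩
  left_inv t := by
    apply Subtype.ext
    change g⁻¹ * (g * (t : G) * g⁻¹) * g = t
    group
  right_inv t := by
    apply Subtype.ext
    change g * (g⁻¹ * (t : G) * g) * g⁻¹ = t
    group
  map_mul' s t := by
    apply Subtype.ext
    change g * ((s : G) * t) * g⁻¹ = g * s * g⁻¹ * (g * t * g⁻¹)
    group

theorem cj_symm (g w : G) (t : Cu (g * w * g⁻¹)) : (((cj g w).symm t : Cu w) : G) = g⁻¹ * t * g :=
  rfl

theorem lb_conj (b : G → F) (g w : G) :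
    lb (fun t : Cu (g * w * g⁻¹) => b (g⁻¹ * t * g)) = lb (fun t : Cu w => b t) :=
  H75.cnt_equiv (cj g w).symm (fun t : Cu w => b t)

theorem blk_conj {b : G → F} {g w : G} (h : IsBlk (fun t : Cu w => b t)) :
    IsBlk (fun t : Cu (g * w * g⁻¹) => b (g⁻¹ * t * g)) :=
  H20.IsBlk_equiv (cj g w).symm h

theorem mul_conj {e b : G → F} (he : IsCl e) {g w : G}
    (h : mulF (fun t : Cu w => e t) (fun t : Cu w => b t) = (fun t : Cu w => b t)) :
    mulF (fun t : Cu (g * w * g⁻¹) => e t) (fun t : Cu (g * w * g⁻¹) => b (g⁻¹ * t * g)) =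
      (fun t : Cu (g * w * g⁻¹) => b (g⁻¹ * t * g)) := by
  have h1 := H20.mulF_equiv (cj g w).symm (fun t : Cu w => e t) (fun t : Cu w => b t)
  rw [h] at h1
  have h2 : (fun t : Cu (g * w * g⁻¹) => e t) =
      fun t : Cu (g * w * g⁻¹) => (fun t : Cu w => e t) ((cj g w).symm t) := by
    funext t
    change e t = e (g⁻¹ * t * g)
    have := he (t : G) g⁻¹
    rw [inv_inv] at this
    exact this.symm
  rw [h2]
  exact h1

/-- An orbit count. -/
theorem fib_le [Fintype G] [DecidableEq G] (T : Subgroup G) (w₀ g₀ : G) (A : Finset (G × G))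
    (hA : ∀ x ∈ A, x.1 * x.2 * x.1⁻¹ = g₀ * w₀ * g₀⁻¹ ∧ ∃ t ∈ T, t * w₀ * t⁻¹ = x.2) :
    ∑ x ∈ A, Nat.card (T ⊓ Cu x.2 : Subgroup G) ≤
      Nat.card T * Nat.card (Cu (g₀ * w₀ * g₀⁻¹)) := by
  classical
  have hc : ∀ K : Subgroup G, Nat.card K = (Finset.univ.filter (fun s : G => s ∈ K)).card := by
    intro K
    rw [Nat.card_eq_fintype_card, Fintype.card_subtype]
  rw [hc T, hc (Cu (g₀ * w₀ * g₀⁻¹)), ← Finset.card_product]
  have h1 : ∑ x ∈ A, Nat.card (T ⊓ Cu x.2 : Subgroup G) =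
      (A.sigma fun x => Finset.univ.filter (fun s : G => s ∈ (T ⊓ Cu x.2 : Subgroup G))).card := by
    rw [Finset.card_sigma]
    exact Finset.sum_congr rfl fun x _ => hc _
  rw [h1]
  have hτ0 : ∀ w, ∃ τ : G, (∃ t ∈ T, t * w₀ * t⁻¹ = w) → τ ∈ T ∧ τ * w₀ * τ⁻¹ = w := by
    intro w
    by_cases h : ∃ t ∈ T, t * w₀ * t⁻¹ = w
    · obtain ⟨t, ht, ht2⟩ := h
      exact ⟨t, fun _ => ⟨ht, ht2⟩⟩
    · exact ⟨1, fun h' => absurd h' h⟩
  choose τ hτ using hτ0
  apply Finset.card_le_card_of_injOn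
    (fun y : (_ : G × G) × G => (y.2 * τ y.1.2, y.1.1 * τ y.1.2 * g₀⁻¹))
  · rintro ⟨⟨g, w⟩, s⟩ hy
    rw [Finset.mem_coe, Finset.mem_sigma, Finset.mem_filter] at hy
    obtain ⟨hx, -, hs⟩ := hy
    obtain ⟨h2, h3⟩ := hA _ hx
    obtain ⟨h4, h5⟩ := hτ w h3
    rw [Finset.mem_coe, Finset.mem_product, Finset.mem_filter, Finset.mem_filter]
    refine ⟨⟨Finset.mem_univ _, mul_mem (Subgroup.mem_inf.1 hs).1 h4⟩, Finset.mem_univ _, ?_⟩
    rw [Subgroup.mem_centralizer_singleton_iff]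
    change g * w * g⁻¹ = g₀ * w₀ * g₀⁻¹ at h2
    change g * τ w * g₀⁻¹ * (g₀ * w₀ * g₀⁻¹) = g₀ * w₀ * g₀⁻¹ * (g * τ w * g₀⁻¹)
    calc g * τ w * g₀⁻¹ * (g₀ * w₀ * g₀⁻¹) = g * (τ w * w₀ * (τ w)⁻¹) * g⁻¹ * (g * τ w * g₀⁻¹) := by
          group
      _ = g * w * g⁻¹ * (g * τ w * g₀⁻¹) := by rw [h5]
      _ = g₀ * w₀ * g₀⁻¹ * (g * τ w * g₀⁻¹) := by rw [h2]
  · rintro ⟨⟨g, w⟩, s⟩ hy ⟨⟨g', w'⟩, s'⟩ hy' h
    rw [Finset.mem_coe, Finset.mem_sigma, Finset.mem_filter] at hy hy'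
    obtain ⟨hx, -, hs⟩ := hy
    obtain ⟨hx', -, hs'⟩ := hy'
    obtain ⟨h4, h5⟩ := hτ w (hA _ hx).2
    obtain ⟨h4', h5'⟩ := hτ w' (hA _ hx').2
    have hs2 : s * w = w * s :=
      Subgroup.mem_centralizer_singleton_iff.1 (Subgroup.mem_inf.1 hs).2
    have hs2' : s' * w' = w' * s' :=
      Subgroup.mem_centralizer_singleton_iff.1 (Subgroup.mem_inf.1 hs').2
    rw [Prod.mk.injEq] at h
    obtain ⟨e1, e2⟩ := h
    change s * τ w = s' * τ w' at e1
    change g * τ w * g₀⁻¹ = g' * τ w' * g₀⁻¹ at e2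
    have hw : w = w' := by
      have a1 : w = s * τ w * w₀ * (s * τ w)⁻¹ := by
        calc w = (w * s) * s⁻¹ := by group
          _ = s * w * s⁻¹ := by rw [hs2]
          _ = s * (τ w * w₀ * (τ w)⁻¹) * s⁻¹ := by rw [h5]
          _ = s * τ w * w₀ * (s * τ w)⁻¹ := by group
      have a2 : w' = s' * τ w' * w₀ * (s' * τ w')⁻¹ := by
        calc w' = (w' * s') * s'⁻¹ := by group
          _ = s' * w' * s'⁻¹ := by rw [hs2']
          _ = s' * (τ w' * w₀ * (τ w')⁻¹) * s'⁻¹ := by rw [h5']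
          _ = s' * τ w' * w₀ * (s' * τ w')⁻¹ := by group
      rw [a1, a2, e1]
    subst hw
    have e3 : s = s' := mul_right_cancel e1
    have e4 : g = g' := mul_right_cancel (mul_right_cancel e2)
    rw [e3, e4]

end gen

/-- COL: the number of columns. -/
theorem col (hfus : FusStmt) (hexb : ExbStmt) : ColStmt := by
  classical
  intro ℓ hℓ M _ hM G _ _ e V γ T hI W L hW hTW hL
  have hF : GoodF ℓ (FF M) := H50.fld ℓ hℓ.out M hM
  have hG : Fintype G := Fintype.ofFinite G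
  have hb0 : ∀ w : G, ∃ β : G → FF M, w ∈ V → Ab V γ w β ∧
      mulF (fun t : Cu w => e t) (fun t : Cu w => β t) = (fun t : Cu w => β t) := by
    intro w
    by_cases h : w ∈ V
    · obtain ⟨β, h1, h2, -⟩ := hexb ℓ (FF M) hF G e V γ T hI w h
      exact ⟨β, fun _ => ⟨h1, h2⟩⟩
    · exact ⟨0, fun h' => absurd h' h⟩
  choose b hb using hb0
  have hWf : ∃ Wf : Finset G, (Wf : Set G) = W := ⟨W.toFinite.toFinset, W.toFinite.coe_toFinset⟩
  obtain ⟨Wf, hWf⟩ := hWf
  have hmW : ∀ w, w ∈ Wf ↔ w ∈ W := fun w => by rw [← hWf, Finset.mem_coe]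
  -- the pairs
  obtain ⟨Φ, hΦ⟩ : ∃ Φ : G × G → G × (G → FF M),
      Φ = fun x => (x.1 * x.2 * x.1⁻¹, fun y => b x.2 (x.1⁻¹ * y * x.1)) := ⟨_, rfl⟩
  obtain ⟨P, hP⟩ : ∃ P : Finset (G × (G → FF M)), P = ((Finset.univ : Finset G) ×ˢ Wf).image Φ := ⟨_, rfl⟩
  obtain ⟨q, hq⟩ : ∃ q : G × (G → FF M) → ℕ, q = fun p => lb (fun t : Cu p.1 => p.2 t) := ⟨_, rfl⟩
  have hqΦ : ∀ x : G × G, q (Φ x) = lb (fun t : Cu x.2 => b x.2 t) := by
    intro x
    rw [hq, hΦ]
    exact lb_conj (b x.2) x.1 x.2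
  -- the double count
  have hI1 : ∑ x ∈ (Finset.univ : Finset G) ×ˢ Wf, Nat.card (T ⊓ Cu x.2 : Subgroup G) * L x.2 ≤
      Nat.card T * ∑ p ∈ P, Nat.card (Cu p.1) * q p := by
    calc ∑ x ∈ (Finset.univ : Finset G) ×ˢ Wf, Nat.card (T ⊓ Cu x.2 : Subgroup G) * L x.2 ≤
        ∑ x ∈ (Finset.univ : Finset G) ×ˢ Wf, Nat.card (T ⊓ Cu x.2 : Subgroup G) * q (Φ x) := by
          apply Finset.sum_le_sum
          intro x hx
          have h1 : x.2 ∈ W := (hmW _).1 (Finset.mem_product.1 hx).2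
          apply Nat.mul_le_mul_left
          rw [hqΦ]
          exact hL x.2 h1 _ (hb x.2 (hW _ h1).1).1
      _ = ∑ p ∈ P, ∑ x ∈ ((Finset.univ : Finset G) ×ˢ Wf).filter (fun x => Φ x = p),
            Nat.card (T ⊓ Cu x.2 : Subgroup G) * q (Φ x) := by
          symm
          apply Finset.sum_fiberwise_of_maps_to
          intro x hx
          rw [hP]
          exact Finset.mem_image_of_mem Φ hx
      _ ≤ ∑ p ∈ P, Nat.card T * (Nat.card (Cu p.1) * q p) := by
          apply Finset.sum_le_sum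
          intro p hp
          have h2 : ∑ x ∈ ((Finset.univ : Finset G) ×ˢ Wf).filter (fun x => Φ x = p),
              Nat.card (T ⊓ Cu x.2 : Subgroup G) * q (Φ x) =
              (∑ x ∈ ((Finset.univ : Finset G) ×ˢ Wf).filter (fun x => Φ x = p),
                Nat.card (T ⊓ Cu x.2 : Subgroup G)) * q p := by
            rw [Finset.sum_mul]
            apply Finset.sum_congr rfl
            intro x hx
            rw [(Finset.mem_filter.1 hx).2]
          rw [h2, ← mul_assoc]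
          apply Nat.mul_le_mul_right
          rw [hP, Finset.mem_image] at hp
          obtain ⟨⟨g₀, w₀⟩, hx₀, hp⟩ := hp
          have hw₀ : w₀ ∈ W := (hmW _).1 (Finset.mem_product.1 hx₀).2
          have hp1 : p.1 = g₀ * w₀ * g₀⁻¹ := by rw [← hp, hΦ]
          rw [hp1]
          apply fib_le T w₀ g₀
          rintro ⟨g, w⟩ hx
          rw [Finset.mem_filter] at hx
          have hw : w ∈ W := (hmW _).1 (Finset.mem_product.1 hx.1).2
          have hx2 := hx.2
          rw [← hp, hΦ, Prod.mk.injEq] at hx2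
          obtain ⟨e1, e2⟩ := hx2
          change g * w * g⁻¹ = g₀ * w₀ * g₀⁻¹ at e1
          change (fun y => b w (g⁻¹ * y * g)) = (fun y => b w₀ (g₀⁻¹ * y * g₀)) at e2
          refine ⟨e1, ?_⟩
          obtain ⟨c, hc, hcT⟩ := hfus ℓ M hM G e V γ T hI w₀ (hW _ hw₀).1 w (hW _ hw).1
            (b w₀) (b w) (hb _ (hW _ hw₀).1).1 (hb _ (hW _ hw).1).1 (g⁻¹ * g₀) (by
              calc w = g⁻¹ * (g * w * g⁻¹) * g := by group
                _ = g⁻¹ * (g₀ * w₀ * g₀⁻¹) * g := by rw [e1]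
                _ = g⁻¹ * g₀ * w₀ * (g⁻¹ * g₀)⁻¹ := by group) (by
              intro x
              have h3 := congrFun e2 (g₀ * x * g₀⁻¹)
              have h4 : g⁻¹ * (g₀ * x * g₀⁻¹) * g = g⁻¹ * g₀ * x * (g⁻¹ * g₀)⁻¹ := by group
              have h5 : g₀⁻¹ * (g₀ * x * g₀⁻¹) * g₀ = x := by group
              change b w (g⁻¹ * (g₀ * x * g₀⁻¹) * g) = b w₀ (g₀⁻¹ * (g₀ * x * g₀⁻¹) * g₀) at h3
              rw [h4, h5] at h3
              exact h3)
          refine ⟨c * (g⁻¹ * g₀), hcT, ?_⟩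
          have hc2 : c * w = w * c := Subgroup.mem_centralizer_singleton_iff.1 hc
          change c * (g⁻¹ * g₀) * w₀ * (c * (g⁻¹ * g₀))⁻¹ = w
          calc c * (g⁻¹ * g₀) * w₀ * (c * (g⁻¹ * g₀))⁻¹ =
              c * (g⁻¹ * (g₀ * w₀ * g₀⁻¹) * g) * c⁻¹ := by group
            _ = c * (g⁻¹ * (g * w * g⁻¹) * g) * c⁻¹ := by rw [e1]
            _ = (c * w) * c⁻¹ := by group
            _ = w := by rw [hc2]; group
      _ = Nat.card T * ∑ p ∈ P, Nat.card (Cu p.1) * q p := by rw [Finset.mul_sum]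
  -- the second main theorem
  have hsmt := H63.smt ℓ (FF M) hF G e hI.blk.1
  have hchp : rk e (cfs (FF M) G) = (IrrE M e).ncard := H50.chp ℓ hℓ.out M hM G e hI.blk.1
  rw [hchp] at hsmt
  obtain ⟨Λ, hΛ⟩ : ∃ Λ : Finset G, Λ = Finset.univ.filter (fun u : G => ∃ n : ℕ, u ^ ℓ ^ n = 1) :=
    ⟨_, rfl⟩
  have h1Λ : (1 : G) ∈ Λ := by
    rw [hΛ, Finset.mem_filter]
    exact ⟨Finset.mem_univ _, 0, one_pow _⟩
  have hone : Nat.card (Subgroup.centralizer ({(1 : G)} : Set G)) *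
      lnum (Subgroup.centralizer ({(1 : G)} : Set G)) e = Nat.card G * lb e := by
    have h3 : Subgroup.centralizer ({(1 : G)} : Set G) = ⊤ := by
      rw [eq_top_iff]
      intro x _
      rw [Subgroup.mem_centralizer_singleton_iff, mul_one, one_mul]
    rw [h3, K9.H35.lnum_top, Subgroup.card_top]
    rfl
  have hmem : ∀ p ∈ P, p.1 ∈ Λ.erase 1 := by
    intro p hp
    rw [hP, Finset.mem_image] at hp
    obtain ⟨⟨g, w⟩, hx, rfl⟩ := hp
    have hw : w ∈ W := (hmW _).1 (Finset.mem_product.1 hx).2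
    rw [hΦ, Finset.mem_erase, hΛ, Finset.mem_filter]
    refine ⟨?_, Finset.mem_univ _, ?_⟩
    · intro h
      apply (hW _ hw).2
      change g * w * g⁻¹ = 1 at h
      calc w = g⁻¹ * (g * w * g⁻¹) * g := by group
        _ = 1 := by rw [h]; group
    · obtain ⟨n, hn⟩ := hI.tp.pg ⟨w, (hW _ hw).1⟩
      refine ⟨n, ?_⟩
      change (g * w * g⁻¹) ^ ℓ ^ n = 1
      have hn' : w ^ ℓ ^ n = 1 := congrArg Subtype.val hn
      rw [conj_pow, hn', mul_one, mul_inv_cancel]
  have hI2 : ∑ p ∈ P, Nat.card (Cu p.1) * q p ≤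
      ∑ u ∈ Λ.erase 1, Nat.card (Subgroup.centralizer ({u} : Set G)) *
        lnum (Subgroup.centralizer ({u} : Set G)) e := by
    rw [← Finset.sum_fiberwise_of_maps_to hmem]
    apply Finset.sum_le_sum
    intro u _
    have h4 : ∑ p ∈ P.filter (fun p => p.1 = u), Nat.card (Cu p.1) * q p =
        Nat.card (Cu u) * ∑ p ∈ P.filter (fun p => p.1 = u), lb (fun t : Cu u => p.2 t) := by
      rw [Finset.mul_sum]
      apply Finset.sum_congr rfl
      rintro ⟨a, c⟩ hp
      have ha : a = u := (Finset.mem_filter.1 hp).2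
      subst ha
      rw [hq]
    rw [h4]
    apply Nat.mul_le_mul_left
    have hPp : ∀ p ∈ P, (∀ x, x ∉ Cu p.1 → p.2 x = 0) ∧ IsBlk (fun t : Cu p.1 => p.2 t) ∧
        mulF (fun t : Cu p.1 => e t) (fun t : Cu p.1 => p.2 t) = (fun t : Cu p.1 => p.2 t) := by
      intro p hp
      rw [hP, Finset.mem_image] at hp
      obtain ⟨⟨g, w⟩, hx, rfl⟩ := hp
      have hw : w ∈ W := (hmW _).1 (Finset.mem_product.1 hx).2
      obtain ⟨h5, h6⟩ := hb w (hW _ hw).1
      rw [hΦ]
      refine ⟨?_, blk_conj h5.bk.blk, mul_conj hI.blk.1.1 h6⟩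
      intro x hx2
      change b w (g⁻¹ * x * g) = 0
      apply h5.bk.off
      intro h7
      apply hx2
      rw [Subgroup.mem_centralizer_singleton_iff] at h7 ⊢
      change x * (g * w * g⁻¹) = g * w * g⁻¹ * x
      calc x * (g * w * g⁻¹) = g * (g⁻¹ * x * g * w) * g⁻¹ := by group
        _ = g * (w * (g⁻¹ * x * g)) * g⁻¹ := by rw [h7]
        _ = g * w * g⁻¹ * x := by group
    have hinj : Set.InjOn (fun p : G × (G → FF M) => (fun t : Cu u => p.2 t))
        (P.filter (fun p => p.1 = u) : Finset (G × (G → FF M))) := by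
      rintro ⟨a, c⟩ hp ⟨a', c'⟩ hp' h
      rw [Finset.mem_coe, Finset.mem_filter] at hp hp'
      obtain ⟨hp, ha⟩ := hp
      obtain ⟨hp', ha'⟩ := hp'
      change a = u at ha
      change a' = u at ha'
      subst ha ha'
      have h8 := (hPp _ hp).1
      have h8' := (hPp _ hp').1
      rw [Prod.mk.injEq]
      refine ⟨rfl, ?_⟩
      funext x
      by_cases hx : x ∈ Cu a'
      · exact congrFun h ⟨x, hx⟩
      · rw [show c x = 0 from h8 x hx, show c' x = 0 from h8' x hx]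
    have h9 : ∑ p ∈ P.filter (fun p => p.1 = u), lb (fun t : Cu u => p.2 t) =
        ∑ c ∈ (P.filter (fun p => p.1 = u)).image (fun p => (fun t : Cu u => p.2 t)), lb c := by
      rw [Finset.sum_image hinj]
    rw [h9]
    apply sum_lb_le hF
    · intro c hc
      rw [Finset.mem_image] at hc
      obtain ⟨⟨a, c'⟩, hp, rfl⟩ := hc
      rw [Finset.mem_filter] at hp
      obtain ⟨hp, ha⟩ := hp
      change a = u at ha
      subst ha
      exact (hPp _ hp).2.1
    · intro c hc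
      rw [Finset.mem_image] at hc
      obtain ⟨⟨a, c'⟩, hp, rfl⟩ := hc
      rw [Finset.mem_filter] at hp
      obtain ⟨hp, ha⟩ := hp
      change a = u at ha
      subst ha
      exact (hPp _ hp).2.2
  rw [← hΛ, ← Finset.add_sum_erase _ _ h1Λ, hone] at hsmt
  -- indices
  obtain ⟨C, hC⟩ : ∃ C : Subgroup G, C = Subgroup.centralizer (V : Set G) := ⟨_, rfl⟩
  rw [← hC]
  have hγ : C ≤ stabF γ := by
    intro c hc x
    rw [hC] at hc
    by_cases hx : x ∈ Subgroup.centralizer (V : Set G)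
    · exact hI.gam.blk.1.1 ⟨x, hx⟩ ⟨c, hc⟩
    · have h10 : c * x * c⁻¹ ∉ Subgroup.centralizer (V : Set G) := by
        intro h
        apply hx
        have : x = c⁻¹ * (c * x * c⁻¹) * c := by group
        rw [this]
        exact mul_mem (mul_mem (inv_mem hc) h) hc
      rw [hI.gam.off _ h10, hI.gam.off _ hx]
  have hCT : C ≤ T := by
    rw [hI.stb]
    refine le_inf ?_ hγ
    rw [hC]
    exact Subgroup.centralizer_le_normalizer _
  have hidx : ∀ K : Subgroup G, C ≤ K → Nat.card K = Nat.card C * C.relIndex K := by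
    intro K hK
    rw [← Subgroup.relIndex_bot_left, ← Subgroup.relIndex_bot_left,
      Subgroup.relIndex_mul_relIndex _ _ _ bot_le hK]
  have hCw : ∀ w ∈ V, C ≤ T ⊓ Cu w := by
    intro w hw
    refine le_inf hCT ?_
    rw [hC]
    exact Subgroup.centralizer_le (Set.singleton_subset_iff.2 hw)
  rw [← hWf, finsum_mem_coe_finset]
  have h11 : ∑ x ∈ (Finset.univ : Finset G) ×ˢ Wf, Nat.card (T ⊓ Cu x.2 : Subgroup G) * L x.2 =
      Nat.card G * (Nat.card C * ∑ w ∈ Wf, L w * C.relIndex (T ⊓ Cu w)) := by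
    have h13 : ∑ w ∈ Wf, Nat.card (T ⊓ Cu w : Subgroup G) * L w =
        Nat.card C * ∑ w ∈ Wf, L w * C.relIndex (T ⊓ Cu w) := by
      rw [Finset.mul_sum]
      apply Finset.sum_congr rfl
      intro w hw
      rw [hidx _ (hCw w (hW _ ((hmW _).1 hw)).1)]
      ring
    rw [Finset.sum_product]
    change ∑ _x : G, ∑ w ∈ Wf, Nat.card (T ⊓ Cu w : Subgroup G) * L w = _
    rw [Finset.sum_const, Finset.card_univ, smul_eq_mul, h13, Nat.card_eq_fintype_card (α := G)]
  rw [h11, hidx T hCT] at hI1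
  have hG0 : 0 < Nat.card G := Nat.card_pos
  have hC0 : 0 < Nat.card C := Nat.card_pos
  have h12 : Nat.card G * Nat.card C * (∑ w ∈ Wf, L w * C.relIndex (T ⊓ Cu w) +
      C.relIndex T * lb e) ≤ Nat.card G * Nat.card C * (C.relIndex T * (IrrE M e).ncard) := by
    calc Nat.card G * Nat.card C * (∑ w ∈ Wf, L w * C.relIndex (T ⊓ Cu w) + C.relIndex T * lb e) =
        Nat.card G * (Nat.card C * ∑ w ∈ Wf, L w * C.relIndex (T ⊓ Cu w)) +
          Nat.card C * C.relIndex T * (Nat.card G * lb e) := by ring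
      _ ≤ Nat.card C * C.relIndex T * (∑ u ∈ Λ.erase 1,
            Nat.card (Subgroup.centralizer ({u} : Set G)) *
              lnum (Subgroup.centralizer ({u} : Set G)) e) +
          Nat.card C * C.relIndex T * (Nat.card G * lb e) := by
          apply Nat.add_le_add_right
          exact hI1.trans (Nat.mul_le_mul_left _ hI2)
      _ = Nat.card C * C.relIndex T * (Nat.card G * (IrrE M e).ncard) := by
          rw [hsmt]
          ring
      _ = Nat.card G * Nat.card C * (C.relIndex T * (IrrE M e).ncard) := by ring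
  exact Nat.le_of_mul_le_mul_left h12 (Nat.mul_pos hG0 hC0)

end Pool.Agent.PP.C2.H87
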